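import Pool.Agent.H14R3.Aug.Stmts

set_option autoImplicit false

open scoped ENNReal InnerProductSpace

namespace Pool.Agent.H14R3.Aug

theorem InjLim_proof : InjLim := by
  intro I J T Ts hTs hinj e c hc
  have hTT : ∀ v, ⟪Ts (T v), v⟫_ℂ = ((‖T v‖ ^ 2 : ℝ) : ℂ) := by
    intro v
    rw [hTs, inner_self_eq_norm_sq_to_K]
    norm_cast
  -- density of the range
  let R : Submodule ℂ (H I) := LinearMap.range ((Ts.comp T : H I →L[ℂ] H I) : H I →ₗ[ℂ] H I)
  have hR : Rᗮ = ⊥ := by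
    rw [Submodule.eq_bot_iff]
    intro v hv
    rw [Submodule.mem_orthogonal] at hv
    have h1 := hv (Ts (T v)) ⟨v, rfl⟩
    rw [hTT v] at h1
    have h2 : ‖T v‖ ^ 2 = 0 := by exact_mod_cast h1
    have h3 : T v = 0 := by
      have : ‖T v‖ = 0 := by
        exact pow_eq_zero_iff (two_ne_zero) |>.1 h2
      exact norm_eq_zero.1 this
    exact hinj v h3
  have hdense : R.topologicalClosure = ⊤ := Submodule.topologicalClosure_eq_top_iff.2 hR
  have hmem : e ∈ closure (R : Set (H I)) := by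
    have : e ∈ R.topologicalClosure := by rw [hdense]; exact Submodule.mem_top
    exact this
  obtain ⟨w, ⟨q, hq⟩, hw⟩ := Metric.mem_closure_iff.1 hmem (c / 2) (by linarith)
  have hq' : Ts (T q) = w := hq
  rw [← hq', dist_eq_norm] at hw
  refine ⟨c / (4 * (‖q‖ + 1)), by positivity, ?_⟩
  intro ε hε hε0 y hy
  have hqn : 0 ≤ ‖q‖ := norm_nonneg q
  have hεq : ε * ‖q‖ ≤ c / 4 := by
    have h1 : ε * (4 * (‖q‖ + 1)) ≤ c := by
      rwa [le_div_iff₀ (by positivity)] at hε0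
    nlinarith
  set z : H I := y - q with hz
  have hr : Ts (T z) + (ε : ℂ) • z = (e - Ts (T q)) - (ε : ℂ) • q := by
    rw [hz, map_sub, map_sub, smul_sub, ← hy]
    abel
  have hrn : ‖Ts (T z) + (ε : ℂ) • z‖ ≤ c / 2 + ε * ‖q‖ := by
    rw [hr]
    refine (norm_sub_le _ _).trans ?_
    rw [norm_smul, Complex.norm_real, Real.norm_of_nonneg hε.le]
    linarith
  have hin : ⟪Ts (T z) + (ε : ℂ) • z, z⟫_ℂ = ((‖T z‖ ^ 2 + ε * ‖z‖ ^ 2 : ℝ) : ℂ) := by
    rw [inner_add_left, hTT, inner_smul_left, Complex.conj_ofReal, inner_self_eq_norm_sq_to_K]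
    push_cast
    rfl
  have hle : ‖T z‖ ^ 2 + ε * ‖z‖ ^ 2 ≤ (c / 2 + ε * ‖q‖) * ‖z‖ := by
    have h1 := norm_inner_le_norm (𝕜 := ℂ) (Ts (T z) + (ε : ℂ) • z) z
    rw [hin, Complex.norm_real, Real.norm_of_nonneg (by positivity)] at h1
    exact h1.trans (mul_le_mul_of_nonneg_right hrn (norm_nonneg _))
  have hεz : ε * ‖z‖ ≤ c / 2 + ε * ‖q‖ := by
    rcases eq_or_lt_of_le (norm_nonneg z) with h0 | h0
    · rw [← h0]
      have : 0 ≤ ε * ‖q‖ := by positivity
      linarith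
    · have h1 : (ε * ‖z‖) * ‖z‖ ≤ (c / 2 + ε * ‖q‖) * ‖z‖ := by
        have := sq_nonneg ‖T z‖
        nlinarith
      exact le_of_mul_le_mul_right h1 h0
  have hy' : ‖y‖ ≤ ‖z‖ + ‖q‖ := by
    have : y = z + q := by rw [hz]; abel
    conv_lhs => rw [this]
    exact norm_add_le _ _
  nlinarith

end Pool.Agent.H14R3.Aug
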